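import Mathlib
import Pool.Agent.TH829.RA.W2

/-!
# Weight-2 characters of `GL(2)` over a number field: the Ramanujan bound up to `ε` at almost all primes

Let `K` be a number field, `𝔫` a nonzero ideal and `θ` a nontrivial character of the Hecke algebra `𝕋_1(𝔫)` acting on
`H^d(Y_1(𝔫), ℂ)`. The conjecture says that `|θ(T_v)| ≤ 2 q_v^{1/2}`, `q_v = N v`, for every prime `v ∤ 𝔫`. Put
`ρ_v = |θ(T_v)| / (2 q_v^{1/2})`. We show, with constants `A` which depend only on `K` (and on `ε` and `B` in the last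
statement), so uniformly in the level `𝔫` and in `θ`:

* for every `X ≥ 3`: `∑_{v ∤ 𝔫, q_v ≤ X} ρ_v^8 / q_v ≤ A (1 + log log X + log N𝔫)`;
* for every `ε ≤ 1/8` and `X ≥ 3`, the number of the primes `v ∤ 𝔫` with `q_v ≤ X` and
  `|θ(T_v)| ≥ 2 q_v^{1/2 + ε}` is at most `A (1 + log log X + log N𝔫) X^{1 - 8 ε}`;
* for every `0 < ε ≤ 1/8` and `B > 1 / (8 ε)` there is a prime `v ∤ 𝔫` with `q_v ≤ A (1 + log N𝔫)^B` and
  `|θ(T_v)| < 2 q_v^{1/2 + ε}`.

The best bound known at every prime, for a general `K`, is `|θ(T_v)| ≤ 2 q_v^{1/2 + 7/64}` (Kim, Sarnak; Blomer,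
Brumley). The full bound is known for totally real `K` (Carayol, Blasius) and for imaginary CM fields (Boxer, Calegari,
Gee, Newton, Thorne), but not for a `K` which is neither.

The structure `WeightTwo` lists what is used of `θ`. By Harder and Franke, `θ` is the system of the eigenvalues of a
cuspidal automorphic representation `π` of `GL_2` over `K`, unitary because its central character is trivial at
infinity, with trivial infinitesimal character and with conductor dividing `𝔫`, or of an Eisenstein class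
`χ_1 ⊞ χ_2`. If the infinity types of `χ_1, χ_2` are parallel then `θ(T_v) = ψ_1(v) + ψ_2(v) q_v` with finite-order
characters `ψ_i` of the narrow ray class group modulo `𝔫` and `θ` is trivial; in the other case `K` contains a CM
field and `χ_1, χ_2` are `q_v^{1/2}` times unitary. So `θ(T_v) = q_v^{1/2} (α_{0,v} + α_{1,v})` with the Satake
parameters of a unitary isobaric `π`, and `Sym⁴ π` is an isobaric sum of at most five unitary cuspidal
representations (Kim), so `L(s, Sym⁴ π × (Sym⁴ π)~)` has a pole of order at most `25` at `s = 1` and the other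
standard properties (structure `RankinSelberg`; Jacquet, Piatetski-Shapiro, Shalika; Moeglin, Waldspurger). Its
conductor exponent at a prime `v` is at most `25` times the one of `π` (the slopes of `Sym⁴ ⊗ (Sym⁴)~` are not larger
than the ones of the two-dimensional representation), whence `Q² ≤ (|disc K| N𝔫)^{25}`; at the infinite places the
parameters of `π` are those of weight 2, so the factors are `Γ_ℝ(s + κ)` with integers `0 ≤ κ ≤ 5`.

The proof: the functional equation and the Phragmén-Lindelöf principle give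
`log L(1 + δ, Sym⁴ π × (Sym⁴ π)~) ≤ A (1 + log (1/δ) + log N𝔫)` for `0 < δ ≤ 1`, and the left-hand side is at least
`∑_v |∑_i α_{0,v}^{4-i} α_{1,v}^i|² q_v^{-1-δ}`. If `π_v` is not tempered then its parameters are `r u` and `u / r` with
`|u| = 1` and `r > 1`, and the inner sum has the absolute value `r⁴ + r² + 1 + r⁻² + r⁻⁴`, which is larger than
`r⁴ ≥ ρ_v⁴`. Take `δ = 1 / log X`. The last statement follows from this, the prime ideal theorem, and the fact that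
at most `2 (1 + log N𝔫)` primes divide `𝔫`.
-/

set_option autoImplicit false

namespace Pool.Agent.Results.MP_4819b8_nt.EighthPowerMean

open NumberField IsDedekindDomain Pool.Agent.TH861.GL3 Pool.Agent.TH829.RA

/-- **The Ramanujan bound for weight-2 characters, up to `ε`, at almost all primes, uniformly in the level.** -/
theorem result (K : Type) [Field K] [NumberField K] :
    (∃ A : ℝ, 0 < A ∧ ∀ (𝔫 : Ideal (𝓞 K)) (S : Finset (HeightOneSpectrum (𝓞 K))) (a : PL S → ℂ)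
      (α : PL S → Fin 2 → ℂ), WeightTwo 𝔫 S a α → ∀ X : ℝ, 3 ≤ X →
      (∀ F : Finset (PL S), (∀ v ∈ F, (qq v.1 : ℝ) ≤ X) →
        ∑ v ∈ F, (‖a v‖ / (2 * (qq v.1 : ℝ) ^ (1 / 2 : ℝ))) ^ 8 / (qq v.1 : ℝ) ≤
          A * (1 + Real.log (Real.log X) + Real.log (Ideal.absNorm 𝔫))) ∧
      ∀ ε : ℝ, ε ≤ 1 / 8 →
        {v : PL S | (qq v.1 : ℝ) ≤ X ∧ 2 * (qq v.1 : ℝ) ^ (1 / 2 + ε) ≤ ‖a v‖}.Finite ∧
        (({v : PL S | (qq v.1 : ℝ) ≤ X ∧ 2 * (qq v.1 : ℝ) ^ (1 / 2 + ε) ≤ ‖a v‖}.ncard : ℕ) : ℝ) ≤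
          A * (1 + Real.log (Real.log X) + Real.log (Ideal.absNorm 𝔫)) * X ^ (1 - 8 * ε)) ∧
    ∀ ε B : ℝ, 0 < ε → ε ≤ 1 / 8 → 1 / (8 * ε) < B →
      ∃ A : ℝ, 0 < A ∧ ∀ (𝔫 : Ideal (𝓞 K)) (S : Finset (HeightOneSpectrum (𝓞 K))) (a : PL S → ℂ)
        (α : PL S → Fin 2 → ℂ), WeightTwo 𝔫 S a α →
        ∃ v : PL S, (qq v.1 : ℝ) ≤ A * (1 + Real.log (Ideal.absNorm 𝔫)) ^ B ∧
          ‖a v‖ < 2 * (qq v.1 : ℝ) ^ (1 / 2 + ε) := by
  obtain ⟨C, hC, HC⟩ := cond_w2 K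
  have e8 : ∀ x : ℝ, (x ^ 4) ^ 2 = x ^ 8 := fun x => by rw [← pow_mul]
  have hset : ∀ {S : Finset (HeightOneSpectrum (𝓞 K))} (a : PL S → ℂ) (ε : ℝ) (v : PL S),
      (qq v.1 : ℝ) ^ (4 * ε) ≤ (‖a v‖ / (2 * (qq v.1 : ℝ) ^ (1 / 2 : ℝ))) ^ 4 ↔
        2 * (qq v.1 : ℝ) ^ (1 / 2 + ε) ≤ ‖a v‖ := by
    intro S a ε v
    have hq := qq_pos v.1
    have h0 : 0 ≤ (qq v.1 : ℝ) ^ ε := by positivity
    have h1 : (qq v.1 : ℝ) ^ (4 * ε) = ((qq v.1 : ℝ) ^ ε) ^ 4 := by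
      rw [← Real.rpow_natCast, ← Real.rpow_mul hq.le]
      congr 1
      push_cast
      ring
    rw [h1, pow_le_pow_iff_left₀ h0 (by positivity) (by norm_num), le_div_iff₀ (by positivity),
      Real.rpow_add hq]
    constructor <;> intro h <;> linarith
  -- the mean value for `ρ`
  have hmean : ∃ A : ℝ, 0 < A ∧ ∀ δ : ℝ, 0 < δ → δ ≤ 1 → ∀ (𝔫 : Ideal (𝓞 K))
      (S : Finset (HeightOneSpectrum (𝓞 K))) (a : PL S → ℂ) (α : PL S → Fin 2 → ℂ), WeightTwo 𝔫 S a α →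
      Summable (fun v : PL S => ((‖a v‖ / (2 * (qq v.1 : ℝ) ^ (1 / 2 : ℝ))) ^ 4) ^ 2 / (qq v.1 : ℝ) *
        (qq v.1 : ℝ) ^ (-δ)) ∧
      ∑' v : PL S, ((‖a v‖ / (2 * (qq v.1 : ℝ) ^ (1 / 2 : ℝ))) ^ 4) ^ 2 / (qq v.1 : ℝ) *
        (qq v.1 : ℝ) ^ (-δ) ≤ A * (1 + Real.log (1 / δ) + Real.log (Ideal.absNorm 𝔫)) := by
    obtain ⟨A, hA, H⟩ := mean_w2 K 25
    refine ⟨A * (1 + C), by positivity, fun δ hδ hδ1 𝔫 S a α h => ?_⟩
    obtain ⟨β, κ, Q, hR, hQ, hκ⟩ := h.rs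
    obtain ⟨s1, s2⟩ := H δ hδ hδ1 S α β κ Q hR h.unitary
    have hle : ∀ v : PL S, ((‖a v‖ / (2 * (qq v.1 : ℝ) ^ (1 / 2 : ℝ))) ^ 4) ^ 2 / (qq v.1 : ℝ) *
        (qq v.1 : ℝ) ^ (-δ) ≤ (rad (α v) ^ 4) ^ 2 / (qq v.1 : ℝ) * (qq v.1 : ℝ) ^ (-δ) := by
      intro v
      have hq := qq_pos v.1
      apply mul_le_mul_of_nonneg_right _ (by positivity)
      apply div_le_div_of_nonneg_right _ hq.le
      apply pow_le_pow_left₀ (by positivity)
      exact pow_le_pow_left₀ (by positivity) (norm_trace_le h v) 4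
    have s3 := Summable.of_nonneg_of_le (fun v => by positivity) hle s1
    refine ⟨s3, (s3.tsum_le_tsum hle s1).trans (s2.trans ?_)⟩
    have hc := HC h.ne hR.one_le hQ hκ
    have hL := Real.log_nonneg (one_le_absNorm h.ne)
    have hl : 0 ≤ Real.log (1 / δ) := Real.log_nonneg (by rw [le_div_iff₀ hδ]; linarith)
    rw [mul_assoc]
    refine mul_le_mul_of_nonneg_left ?_ hA.le
    have hC0 : 0 ≤ C := by linarith
    nlinarith [mul_nonneg hC0 hl]
  have hmert : ∃ A : ℝ, 0 < A ∧ ∀ (𝔫 : Ideal (𝓞 K)) (S : Finset (HeightOneSpectrum (𝓞 K))) (a : PL S → ℂ)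
      (α : PL S → Fin 2 → ℂ), WeightTwo 𝔫 S a α → ∀ X : ℝ, 3 ≤ X →
      ∀ F : Finset (PL S), (∀ v ∈ F, (qq v.1 : ℝ) ≤ X) →
        ∑ v ∈ F, ((‖a v‖ / (2 * (qq v.1 : ℝ) ^ (1 / 2 : ℝ))) ^ 4) ^ 2 / (qq v.1 : ℝ) ≤
          A * (1 + Real.log (Real.log X) + Real.log (Ideal.absNorm 𝔫)) := by
    obtain ⟨A, hA, H⟩ := hmean
    refine ⟨Real.exp 1 * A, by positivity, fun 𝔫 S a α h X hX F hF => ?_⟩
    exact mertens_of (f := fun v => ((‖a v‖ / (2 * (qq v.1 : ℝ) ^ (1 / 2 : ℝ))) ^ 4) ^ 2 / (qq v.1 : ℝ))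
      (fun v => by positivity) hX (fun δ hδ hδ1 => H δ hδ hδ1 𝔫 S a α h) F hF
  refine ⟨?_, fun ε B hε0 hε hB => ?_⟩
  · obtain ⟨A, hA, H⟩ := hmert
    refine ⟨A, hA, fun 𝔫 S a α h X hX => ⟨fun F hF => ?_, fun ε hε => ⟨fin_le X _, ?_⟩⟩⟩
    · have := H 𝔫 S a α h X hX F hF
      simpa only [e8] using this
    · have hX1 : 1 ≤ X := by linarith
      have := count_of (m := 1) (R := fun v => (‖a v‖ / (2 * (qq v.1 : ℝ) ^ (1 / 2 : ℝ))) ^ 4)
        (θ := 4 * ε) (by linarith) hX1 (fun F hF => by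
          simpa using H 𝔫 S a α h X hX F hF)
      simp only [hset] at this
      refine this.trans (le_of_eq ?_)
      congr 2
      push_cast
      ring
  · obtain ⟨δ, hδ, hδ1, G⟩ := least_place K (m := 1) (θ := 4 * ε) (B := B) (by linarith)
      (by push_cast; linarith) (by
        have : 1 - ((1 : ℕ) : ℝ) * (1 - 2 * (4 * ε)) = 8 * ε := by push_cast; ring
        rw [this]
        exact hB)
    obtain ⟨A, hA, H⟩ := hmean
    have hl : 0 ≤ Real.log (1 / δ) := Real.log_nonneg (by rw [le_div_iff₀ hδ]; linarith)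
    obtain ⟨A', hA', G'⟩ := G (A * (1 + Real.log (1 / δ))) (by positivity)
    refine ⟨A', hA', fun 𝔫 S a α h => ?_⟩
    obtain ⟨h1, h2⟩ := H δ hδ hδ1 𝔫 S a α h
    have hL := Real.log_nonneg (one_le_absNorm h.ne)
    obtain ⟨v, hv1, hv2⟩ := G' S (1 + Real.log (Ideal.absNorm 𝔫)) (by linarith)
      (card_level h.ne fun v hv => (h.mem v).1 hv)
      (fun v => (‖a v‖ / (2 * (qq v.1 : ℝ) ^ (1 / 2 : ℝ))) ^ 4) (fun v => by positivity)
      (by simpa using h1) (by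
        have h3 : ∑' v : PL S, (((‖a v‖ / (2 * (qq v.1 : ℝ) ^ (1 / 2 : ℝ))) ^ 4) ^ 2 / (qq v.1 : ℝ)) ^ 1 *
            (qq v.1 : ℝ) ^ (-δ) ≤ A * (1 + Real.log (1 / δ) + Real.log (Ideal.absNorm 𝔫)) := by
          simpa using h2
        refine h3.trans ?_
        rw [mul_assoc]
        refine mul_le_mul_of_nonneg_left ?_ hA.le
        nlinarith [mul_nonneg hl hL])
    refine ⟨v, hv1, ?_⟩
    rw [← not_le, ← hset, not_le]
    exact hv2

end Pool.Agent.Results.MP_4819b8_nt.EighthPowerMean
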