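import Mathlib
import Pool.Agent.TH949.TX.W2

/-!
# Weight-2 characters of `GL(2)` over a number field: the Ramanujan bound at all primes from one sequence of intervals

Let `K` be a number field, `𝔫` a nonzero ideal, `S` the set of its prime divisors, and `θ` a nontrivial character of the
Hecke algebra `𝕋_1(𝔫)` acting on `H^d(Y_1(𝔫), ℂ)`. Write `q_v = N v` and `θ(T_v) = a_v = q_v^{1/2} (α_{0,v} + α_{1,v})`,
`v ∉ S`, and let

`χ₄(v) = α₀⁴ + α₀³ α₁ + α₀² α₁² + α₀ α₁³ + α₁⁴`

be the trace of the symmetric fourth power. The conjecture says that `|a_v| ≤ 2 q_v^{1/2}` for all `v ∉ S`. We show: let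
`c ≥ 1/2` be such that `ζ_K` has no real zeros to the right of `c`, let `δ > 0`, and suppose that there are arbitrarily
large `X` with

`∑_{X^{1-δ} ≤ q_v ≤ X} max(0, 1 - |χ₄(v)|²) < X^c`

(for example, such that fewer than `X^c` primes `v` with `X^{1-δ} ≤ q_v ≤ X` have `|χ₄(v)| < 1`). Then

`|a_v| ≤ q_v^{1/2} (q_v^{c/8} + q_v^{-c/8})` **for every `v ∉ S`**,

and all zeros and poles of `L^S(s, Sym⁴ π × (Sym⁴ π)~) / ζ_K^S(s)` have real part `≤ c`. In other words: a violation
of the bound at a single prime `v`, `|a_v| = q_v^{1/2} (q_v^θ + q_v^{-θ})` with `8 θ > c`, forces, for **all** large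
`X`, more than `X^c` primes `w` with `X^{1-δ} ≤ q_w ≤ X` and `|χ₄(w)| < 1`. This is informative for `c < 7/8`, as
`θ ≤ 7/64` (Kim, Sarnak; Blomer, Brumley). That `|χ₄(w)| < 1` for many `w` does not follow from the known moments of
`a_w`: the first four moments of `a_w² / q_w` are the ones of a measure on `{0, 1, 2, 3}`, where `|χ₄| = 1`.

The structure `WeightTwoSym4` lists what is used: the local components of the automorphic representation `π` given by
`θ` are unitary, and `Sym⁴ π` is cuspidal (Kim; in the other cases `π` is dihedral or an Eisenstein series and the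
bound is known), so that `L^S(s, Sym⁴ π × (Sym⁴ π)~)` converges absolutely for `Re s > 1` and is entire but for a simple
pole at `s = 1` (Jacquet, Piatetski-Shapiro, Shalika; Moeglin, Waldspurger). No functional equation, no growth and no
information at the infinite places is used. `NoRealZeros S c`: `D(s) = (s - 1) ζ_K^S(s)` is entire (Hecke) and has no
real zeros `x > c`; at `x = 1` and for `x > 1` this is automatic.

The proof: let `F(s) = L^{S ∪ {v}}(s, Sym⁴ π × (Sym⁴ π)~) / ζ_K^{S ∪ {v}}(s)`. Removing the Euler factor at `v`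
produces a zero of `F` at `s = 8 θ`. The real singularities of `F` to the right of `c` are zeros, so an explicit
formula with a Gaussian weight at a real point a little to the left of the rightmost singularities, and, unless these
are real, also at a point near one of them where a single term dominates, shows that negative coefficients of `log F`
contribute at every scale. The prime powers do not matter as `c ≥ 1/2`.
-/

set_option autoImplicit false

namespace Pool.Agent.Results.MP_4819b8_nt.SymFourIntervals

open NumberField IsDedekindDomain Pool.Agent.TH861.GL3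
open Pool.Agent.TH949.TX (sym4K tr4 RankinSelbergK NoRealZeros SingK w2_all)

/-- A nontrivial weight-2 character with eigenvalues `a v`, `v ∉ S`, Satake parameters `α v` and cuspidal symmetric
fourth power, and the facts that are used. -/
structure WeightTwoSym4 {K : Type} [Field K] [NumberField K] (S : Finset (HeightOneSpectrum (𝓞 K)))
    (a : PL S → ℂ) (α : PL S → Fin 2 → ℂ) : Prop where
  /-- the Hecke eigenvalue -/
  eigenvalue : ∀ v, a v = ((qq v.1 : ℝ) ^ (1 / 2 : ℝ) : ℝ) * (α v 0 + α v 1)
  /-- the local components are unitary -/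
  unitary : ∀ v, (∀ i, α v i ≠ 0) ∧
    Multiset.map (fun i => ((starRingEnd ℂ) (α v i))⁻¹) Finset.univ.val = Multiset.map (α v) Finset.univ.val
  /-- `L^S(s, Sym⁴ × (Sym⁴)~)` converges absolutely for `Re s > 1` and is entire but for a simple pole at `s = 1` -/
  sym4 : RankinSelbergK (sym4K α)

open scoped Classical in
/-- **The bound at all primes from one sequence of intervals.** -/
theorem result (K : Type) [Field K] [NumberField K] (S : Finset (HeightOneSpectrum (𝓞 K)))
    (a : PL S → ℂ) (α : PL S → Fin 2 → ℂ) (h : WeightTwoSym4 S a α) (c δ : ℝ) (hc : 1 / 2 ≤ c) (hδ : 0 < δ)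
    (hD : NoRealZeros S c)
    (hX : ∀ X₀ : ℝ, ∃ X : ℝ, X₀ ≤ X ∧ (∑' v : PL S,
      if X ^ (1 - δ) ≤ (qq v.1 : ℝ) ∧ (qq v.1 : ℝ) ≤ X then max 0 (1 - ‖tr4 α v‖ ^ 2) else 0) < X ^ c) :
    (∀ v : PL S, ‖a v‖ ≤ (qq v.1 : ℝ) ^ (1 / 2 : ℝ) * ((qq v.1 : ℝ) ^ (c / 8) + (qq v.1 : ℝ) ^ (-(c / 8)))) ∧
    ¬ SingK (sym4K α) c := by
  obtain ⟨h1, h2⟩ := w2_all h.unitary h.sym4 hc hδ hD hX
  refine ⟨fun v => ?_, h2⟩
  have hq : (0 : ℝ) ≤ (qq v.1 : ℝ) ^ (1 / 2 : ℝ) := by positivity
  rw [h.eigenvalue v, norm_mul, Complex.norm_real, Real.norm_of_nonneg hq]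
  exact mul_le_mul_of_nonneg_left (h1 v) hq

end Pool.Agent.Results.MP_4819b8_nt.SymFourIntervals
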